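import Pool.Agent.U647.ET.Lift

/-!
# Hyperbolicity and maps from complex tori under unramified coverings
-/

set_option autoImplicit false

open Filter Topology Metric Set LinearAlgebra.Projectivization

namespace Pool.Agent.U647.ET

open Pool.Agent.N154.TC
open Pool.Agent.N154.TB (CurveIn IsConst BrodyHyp)
open FF Pool.Agent.Y190.OP Pool.Agent.W602.GT
open Pool.Agent.N154.GG (HolMap toProj toProj_Phi Phi_rep_toProj Phi_rep_mk proj_ext holMap_of
  holP_of projDist)
open Pool.Agent.TH182.TC (EllipticRigid TorusRigid Holo OnX)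
open Pool.Agent.U647.IS (onX_iff torusRigid_of_brody)

variable {n n' : ℕ} {ι ι' : Type} {X : Set (Fin (n + 1) → ℂ)} {X' : Set (Fin (n' + 1) → ℂ)}
  {π : ℙ ℂ (Fin (n' + 1) → ℂ) → ℙ ℂ (Fin (n + 1) → ℂ)}
  {F : ι → MvPolynomial (Fin (n + 1)) ℂ} {F' : ι' → MvPolynomial (Fin (n' + 1)) ℂ}

/-- the composition of a curve with the covering -/
theorem comp_curve (hX' : Conic X') (h : Covering X' X π) {f : ℂ → ℙ ℂ (Fin (n' + 1) → ℂ)}
    (hf : CurveIn X' f) : CurveIn X fun z => π (f z) :=
  ⟨fun z => hol_comp hX' hf (h.hol _ (hf.2 z)), fun z => h.maps _ (hf.2 z)⟩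

/-- a curve which is mapped to a point is constant -/
theorem const_of_comp (h : Covering X' X π) {f : ℂ → ℙ ℂ (Fin (n' + 1) → ℂ)}
    (hf : CurveIn X' f) (hc : IsConst fun z => π (f z)) : IsConst f := by
  have hloc : IsLocallyConstant f := by
    rw [IsLocallyConstant.iff_eventually_eq]
    intro z
    obtain ⟨ε, σ, hε, -, h2⟩ := h.inv (f z) (hf.2 z)
    have h3 : Continuous fun w => Phi (f w).rep := by
      rw [continuous_iff_continuousAt]
      exact fun w => (holP_of hf.1).continuousAt (mem_univ w)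
    have h4 : ∀ᶠ w in 𝓝 z, projDist (f w) (f z) < ε := by
      have h5 : Continuous fun w => projDist (f w) (f z) := by
        unfold projDist
        exact (h3.sub continuous_const).norm
      have h6 := h5.tendsto z
      have h7 : projDist (f z) (f z) = 0 := by
        unfold projDist
        rw [sub_self, norm_zero]
      rw [h7] at h6
      exact h6.eventually_lt_const hε
    filter_upwards [h4] with w hw
    have h5 : projDist (f z) (f z) < ε := by
      unfold projDist
      rw [sub_self, norm_zero]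
      exact hε
    have h6 : π (f w) = π (f z) := hc w z
    rw [← h2 _ (hf.2 w) hw, ← h2 _ (hf.2 z) h5, h6]
  exact fun z w => hloc.apply_eq_of_isPreconnected isPreconnected_univ (mem_univ z) (mem_univ w)

/-- **Brody hyperbolicity descends** -/
theorem brody_down (hF : ∀ i, IsForm (F i)) (hF' : ∀ i, IsForm (F' i))
    (h : Covering (Cone F') (Cone F) π) (hB : BrodyHyp (Cone F')) : BrodyHyp (Cone F) := by
  intro f hf z w
  obtain ⟨p, hp, hpf⟩ := h.surj (f 0) (hf.2 0)
  obtain ⟨f', hf', -, hff⟩ := lift (cone_conic hF) (cone_conic hF') (isCompact_TF hF') h hf hp hpf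
  rw [← hff z, ← hff w, hB f' hf' z w]

/-- Brody hyperbolicity ascends -/
theorem brody_up (hF' : ∀ i, IsForm (F' i)) (h : Covering (Cone F') (Cone F) π)
    (hB : BrodyHyp (Cone F)) : BrodyHyp (Cone F') := fun _ hf =>
  const_of_comp h hf (hB _ (comp_curve (cone_conic hF') h hf))

theorem holo_of {f : ℂ → ℙ ℂ (Fin (n + 1) → ℂ)} (hf : HolMap f) : Holo f := by
  intro z
  obtain ⟨V, g, hV, hzV, hg, hgf⟩ := hf z
  exact ⟨g, hg.analyticAt (hV.mem_nhds hzV), by
    filter_upwards [hV.mem_nhds hzV] with w hw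
    exact hgf w hw⟩

theorem of_holo {f : ℂ → ℙ ℂ (Fin (n + 1) → ℂ)} (hf : Holo f) : HolMap f := by
  intro z
  obtain ⟨g, hg, hgf⟩ := hf z
  obtain ⟨V, hV, hVo, hzV⟩ := _root_.eventually_nhds_iff.1 (hg.eventually_analyticAt.and hgf)
  exact ⟨V, g, hVo, hzV, fun w hw => (hV w hw).1.differentiableAt.differentiableWithinAt,
    fun w hw => (hV w hw).2⟩

/-- **Maps from one-dimensional complex tori** -/
theorem rigid_up (hF' : ∀ i, IsForm (F' i)) (h : Covering (Cone F') (Cone F) π)
    (hE : EllipticRigid F) : EllipticRigid F' := by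
  intro w1 w2 hw g hg hgX h1 h2
  have hgc : CurveIn (Cone F') g := ⟨of_holo hg, fun z => (onX_iff _).1 (hgX z)⟩
  have h3 := comp_curve (cone_conic hF') h hgc
  refine const_of_comp h hgc ?_
  exact hE w1 w2 hw _ (holo_of h3.1) (fun z => (onX_iff _).2 (h3.2 z))
    (fun z => by simp only [h1 z]) (fun z => by simp only [h2 z])

end Pool.Agent.U647.ET
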