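import Pool.Agent.N154.TC.AGeo
import Pool.Agent.N154.DD.KDefs

/-!
# Unramified coverings of projective sets
-/

set_option autoImplicit false

open LinearAlgebra.Projectivization
open Pool.Agent.N154.GG (projDist)

namespace Pool.Agent.U647.ET

variable {n n' : ℕ}

/-- `σ` is holomorphic near the point `q` of the projective set with the cone `X`: it is given by
holomorphic functions of the homogeneous coordinates of the points of the set. -/
def HolAt (X : Set (Fin (n + 1) → ℂ)) (σ : ℙ ℂ (Fin (n + 1) → ℂ) → ℙ ℂ (Fin (n' + 1) → ℂ))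
    (q : ℙ ℂ (Fin (n + 1) → ℂ)) : Prop :=
  ∃ (V : Set (Fin (n + 1) → ℂ)) (g : (Fin (n + 1) → ℂ) → Fin (n' + 1) → ℂ), IsOpen V ∧
    q.rep ∈ V ∧ AnalyticOnNhd ℂ g V ∧ ∀ v ∈ V, v ∈ X → ∃ (h : v ≠ 0) (h' : g v ≠ 0),
      σ (Projectivization.mk ℂ v h) = Projectivization.mk ℂ (g v) h'

/-- `π` is an unramified covering (a finite étale morphism) from the projective set with the cone
`X'` onto the projective set with the cone `X`: it is holomorphic and surjective, and near every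
point it has a holomorphic inverse `σ`. -/
structure Covering (X' : Set (Fin (n' + 1) → ℂ)) (X : Set (Fin (n + 1) → ℂ))
    (π : ℙ ℂ (Fin (n' + 1) → ℂ) → ℙ ℂ (Fin (n + 1) → ℂ)) : Prop where
  maps : ∀ p, p.rep ∈ X' → (π p).rep ∈ X
  surj : ∀ q, q.rep ∈ X → ∃ p, p.rep ∈ X' ∧ π p = q
  hol : ∀ p, p.rep ∈ X' → HolAt X' π p
  inv : ∀ p, p.rep ∈ X' → ∃ (ε : ℝ) (σ : ℙ ℂ (Fin (n + 1) → ℂ) → ℙ ℂ (Fin (n' + 1) → ℂ)), 0 < ε ∧
    (∀ q, q.rep ∈ X → projDist q (π p) < ε → HolAt X σ q ∧ (σ q).rep ∈ X' ∧ π (σ q) = q) ∧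
    ∀ p₁, p₁.rep ∈ X' → projDist p₁ p < ε → σ (π p₁) = p₁

end Pool.Agent.U647.ET
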