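import Pool.Agent.U647.ET.Defs
import Pool.Agent.U647.IS.Tor
import Mathlib

/-!
# Lifting of entire curves through unramified coverings
-/

set_option autoImplicit false

open Filter Topology Metric Set LinearAlgebra.Projectivization

namespace Pool.Agent.U647.ET

open Pool.Agent.N154.TC
open Pool.Agent.N154.TB (CurveIn IsConst BrodyHyp)
open FF Pool.Agent.Y190.OP Pool.Agent.W602.GT
open Pool.Agent.N154.GG (HolMap toProj toProj_Phi Phi_rep_toProj Phi_rep_mk proj_ext holMap_of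
  holP_of projDist)

variable {n n' : ℕ} {X : Set (Fin (n + 1) → ℂ)} {X' : Set (Fin (n' + 1) → ℂ)}
  {π : ℙ ℂ (Fin (n' + 1) → ℂ) → ℙ ℂ (Fin (n + 1) → ℂ)}

theorem toProj_rep (q : ℙ ℂ (Fin (n + 1) → ℂ)) : toProj (Phi q.rep) = q := by
  rw [toProj_Phi q.rep_nonzero, Projectivization.mk_rep]

theorem hol_cont {σ : ℙ ℂ (Fin (n + 1) → ℂ) → ℙ ℂ (Fin (n' + 1) → ℂ)} (hX : Conic X)
    {q : ℙ ℂ (Fin (n + 1) → ℂ)} (hq : q.rep ∈ X) (h : HolAt X σ q) :
    ContinuousWithinAt (fun M => Phi (σ (toProj M)).rep) (TS X) (Phi q.rep) := by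
  obtain ⟨V, g, hV, hqV, hg, hgσ⟩ := h
  obtain ⟨i, hi⟩ : ∃ i, q.rep i ≠ 0 := by
    by_contra hcon
    push Not at hcon
    exact q.rep_nonzero (funext hcon)
  have hii : Phi q.rep i i ≠ 0 := (Phi_diag_ne q.rep_nonzero).2 hi
  have hc0 : (q.rep i) • chart i (Phi q.rep) = q.rep := by
    rw [chart_Phi q.rep_nonzero hi, smul_smul, mul_inv_cancel₀ hi, one_smul]
  have hc : ContinuousAt (fun M : Mat (n + 1) => (q.rep i) • chart i M) (Phi q.rep) :=
    ContinuousAt.comp (g := fun v : Fin (n + 1) → ℂ => (q.rep i) • v)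
      (continuous_const_smul (q.rep i)).continuousAt (continuousAt_chart hii)
  obtain ⟨-, hgq, -⟩ := hgσ q.rep hqV hq
  have hev1 : ∀ᶠ M : Mat (n + 1) in 𝓝 (Phi q.rep), (q.rep i) • chart i M ∈ V :=
    hc.eventually (by
      change ∀ᶠ y in 𝓝 ((q.rep i) • chart i (Phi q.rep)), y ∈ V
      rw [hc0]
      exact hV.mem_nhds hqV)
  have hev2 : ∀ᶠ M : Mat (n + 1) in 𝓝 (Phi q.rep), M i i ≠ 0 :=
    (continuous_apply_apply i i).continuousAt.eventually_ne hii
  have hval : ∀ M ∈ TS X, (q.rep i) • chart i M ∈ V → M i i ≠ 0 →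
      Phi (σ (toProj M)).rep = Phi (g ((q.rep i) • chart i M)) := by
    intro M hM h1 h2
    have hcX : (q.rep i) • chart i M ∈ X := (hX _ (TS_chart hX hM h2)).2 _ hi
    obtain ⟨h3, h4, h5⟩ := hgσ _ h1 hcX
    have h6 : toProj M = Projectivization.mk ℂ ((q.rep i) • chart i M) h3 := by
      rw [← toProj_Phi h3, Phi_smul hi, PM.Phi_chart (TS_PM hX hM) h2]
    rw [h6, h5, Phi_rep_mk]
  have hcont : ContinuousAt (fun M : Mat (n + 1) => Phi (g ((q.rep i) • chart i M)))
      (Phi q.rep) := by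
    have h1 : ContinuousAt (fun M : Mat (n + 1) => g ((q.rep i) • chart i M)) (Phi q.rep) := by
      refine ContinuousAt.comp (g := g) (f := fun M : Mat (n + 1) => (q.rep i) • chart i M) ?_ hc
      rw [hc0]
      exact (hg _ hqV).continuousAt
    refine ContinuousAt.comp (g := Phi)
      (f := fun M : Mat (n + 1) => g ((q.rep i) • chart i M)) ?_ h1
    rw [hc0]
    exact continuousAt_Phi hgq
  refine hcont.continuousWithinAt.congr_of_eventuallyEq ?_ ?_
  · filter_upwards [self_mem_nhdsWithin, mem_nhdsWithin_of_mem_nhds hev1,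
      mem_nhdsWithin_of_mem_nhds hev2] with M hM h1 h2
    exact hval M hM h1 h2
  · exact hval _ (mem_TS hq) (by rw [hc0]; exact hqV) hii

theorem hol_comp {σ : ℙ ℂ (Fin (n + 1) → ℂ) → ℙ ℂ (Fin (n' + 1) → ℂ)} (hX : Conic X)
    {f : ℂ → ℙ ℂ (Fin (n + 1) → ℂ)} (hf : CurveIn X f) {z : ℂ} (h : HolAt X σ (f z)) :
    ∃ (V : Set ℂ) (g : ℂ → Fin (n' + 1) → ℂ), IsOpen V ∧ z ∈ V ∧ DifferentiableOn ℂ g V ∧
      ∀ w ∈ V, ∃ h : g w ≠ 0, σ (f w) = Projectivization.mk ℂ (g w) h := by
  obtain ⟨W, g, hW, hqW, hg, hgσ⟩ := h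
  obtain ⟨V, F, hV, hzV, hF, hFf⟩ := hf.1 z
  obtain ⟨hz0, hz⟩ := hFf z hzV
  obtain ⟨c, hc⟩ := Projectivization.exists_smul_eq_mk_rep ℂ (F z) hz0
  have hc' : (c : ℂ) • F z = (f z).rep := by
    rw [hz, ← hc]
    rfl
  have hcont : ContinuousOn (fun w => (c : ℂ) • F w) V :=
    (continuous_const_smul (c : ℂ)).comp_continuousOn hF.continuousOn
  refine ⟨V ∩ (fun w => (c : ℂ) • F w) ⁻¹' W, fun w => g ((c : ℂ) • F w),
    hcont.isOpen_inter_preimage hV hW, ⟨hzV, ?_⟩, ?_, ?_⟩
  · change (c : ℂ) • F z ∈ W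
    rw [hc']
    exact hqW
  · intro w hw
    have h0 : DifferentiableAt ℂ F w := (hF w hw.1).differentiableAt (hV.mem_nhds hw.1)
    have h1 : DifferentiableAt ℂ (fun w => (c : ℂ) • F w) w := by fun_prop
    exact ((hg _ hw.2).differentiableAt.comp w h1).differentiableWithinAt
  · intro w hw
    obtain ⟨h1, h2⟩ := hFf w hw.1
    have hX1 : (c : ℂ) • F w ∈ X := by
      have h3 := hf.2 w
      obtain ⟨e, he⟩ := Projectivization.exists_smul_eq_mk_rep ℂ (F w) h1
      rw [h2, ← he] at h3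
      have h4 := (hX _ h3).2 ((c : ℂ) * (e : ℂ)⁻¹) (mul_ne_zero c.ne_zero (inv_ne_zero e.ne_zero))
      have h5 : ((c : ℂ) * (e : ℂ)⁻¹) • (e • F w) = (c : ℂ) • F w := by
        change ((c : ℂ) * (e : ℂ)⁻¹) • ((e : ℂ) • F w) = _
        rw [smul_smul, mul_assoc, inv_mul_cancel₀ e.ne_zero, mul_one]
      rwa [h5] at h4
    obtain ⟨h3, h4, h5⟩ := hgσ _ hw.2 hX1
    refine ⟨h4, ?_⟩
    rw [← h5, h2]
    congr 1
    rw [Projectivization.mk_eq_mk_iff']
    exact ⟨(c : ℂ)⁻¹, by rw [smul_smul, inv_mul_cancel₀ c.ne_zero, one_smul]⟩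

/-- the covering as a map of sets of matrices -/
noncomputable def cov (hX' : Conic X') (h : Covering X' X π) (M : TS X') : TS X :=
  ⟨Phi (π (toProj M.1)).rep, mem_TS (h.maps _ (rep_toProj hX' M.2))⟩

theorem continuous_cov (hX' : Conic X') (h : Covering X' X π) : Continuous (cov hX' h) := by
  refine Continuous.subtype_mk ?_ _
  rw [continuous_iff_continuousAt]
  intro M
  have h1 := hol_cont hX' (rep_toProj hX' M.2) (h.hol _ (rep_toProj hX' M.2))
  rw [Phi_rep_toProj (TS_PM hX' M.2)] at h1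
  exact (continuousWithinAt_iff_continuousAt_domRestrict _ M.2).1 h1

theorem isLocalHomeomorph_cov (hX : Conic X) (hX' : Conic X') (h : Covering X' X π) :
    IsLocalHomeomorph (cov hX' h) := by
  classical
  intro e
  obtain ⟨ε, σ, hε, h1, h2⟩ := h.inv (toProj e.1) (rep_toProj hX' e.2)
  have hdE : ∀ M : TS X', dist M e < ε ↔ projDist (toProj M.1) (toProj e.1) < ε := by
    intro M
    unfold projDist
    rw [Phi_rep_toProj (TS_PM hX' M.2), Phi_rep_toProj (TS_PM hX' e.2), Subtype.dist_eq,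
      dist_eq_norm]
  have hdY : ∀ N : TS X, dist N (cov hX' h e) < ε ↔ projDist (toProj N.1) (π (toProj e.1)) < ε := by
    intro N
    unfold projDist
    rw [Phi_rep_toProj (TS_PM hX N.2), Subtype.dist_eq, dist_eq_norm]
    rfl
  have hcovP : ∀ M : TS X', toProj (cov hX' h M).1 = π (toProj M.1) := fun M => toProj_rep _
  let s : TS X → TS X' := fun N => if hN : dist N (cov hX' h e) < ε then
    ⟨Phi (σ (toProj N.1)).rep, mem_TS (h1 _ (rep_toProj hX N.2) ((hdY N).1 hN)).2.1⟩ else e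
  have hs : ∀ N : TS X, dist N (cov hX' h e) < ε → (s N).1 = Phi (σ (toProj N.1)).rep := by
    intro N hN
    change (if hN : dist N (cov hX' h e) < ε then _ else e : TS X').1 = _
    rw [dif_pos hN]
  have hsc : ContinuousOn s (ball (cov hX' h e) ε) := by
    intro N hN
    rw [mem_ball] at hN
    rw [Topology.IsInducing.subtypeVal.continuousWithinAt_iff]
    have h3 : ContinuousAt (fun N : TS X => Phi (σ (toProj N.1)).rep) N := by
      have h4 := hol_cont hX (rep_toProj hX N.2) (h1 _ (rep_toProj hX N.2) ((hdY N).1 hN)).1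
      rw [Phi_rep_toProj (TS_PM hX N.2)] at h4
      exact (continuousWithinAt_iff_continuousAt_domRestrict _ N.2).1 h4
    refine h3.continuousWithinAt.congr (fun N' hN' => ?_) ?_
    · exact hs N' (mem_ball.1 hN')
    · exact hs N hN
  have hcs : ∀ N : TS X, dist N (cov hX' h e) < ε → cov hX' h (s N) = N := by
    intro N hN
    apply Subtype.ext
    change Phi (π (toProj (s N).1)).rep = N.1
    rw [hs N hN, toProj_rep, (h1 _ (rep_toProj hX N.2) ((hdY N).1 hN)).2.2,
      Phi_rep_toProj (TS_PM hX N.2)]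
  have hsc' : ∀ M : TS X', dist M e < ε → dist (cov hX' h M) (cov hX' h e) < ε →
      s (cov hX' h M) = M := by
    intro M hM hM'
    apply Subtype.ext
    rw [hs _ hM', hcovP, h2 _ (rep_toProj hX' M.2) ((hdE M).1 hM), Phi_rep_toProj (TS_PM hX' M.2)]
  have hcc := continuous_cov hX' h
  refine ⟨{ toFun := cov hX' h, invFun := s,
            source := {M | dist M e < ε ∧ dist (cov hX' h M) (cov hX' h e) < ε},
            target := ball (cov hX' h e) ε ∩ s ⁻¹' ball e ε,
            map_source' := ?_, map_target' := ?_, left_inv' := ?_, right_inv' := ?_,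
            open_source := ?_, open_target := ?_, continuousOn_toFun := ?_,
            continuousOn_invFun := ?_ }, ?_, rfl⟩
  · rintro M ⟨hM, hM'⟩
    refine ⟨hM', ?_⟩
    change s (cov hX' h M) ∈ ball e ε
    rw [hsc' M hM hM']
    exact hM
  · rintro N ⟨hN, hN'⟩
    refine ⟨hN', ?_⟩
    rw [hcs N hN]
    exact hN
  · rintro M ⟨hM, hM'⟩
    exact hsc' M hM hM'
  · rintro N ⟨hN, -⟩
    exact hcs N hN
  · exact hcc.continuousOn
  · exact hsc.mono inter_subset_left
  · exact (isOpen_lt (continuous_id.dist continuous_const) continuous_const).inter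
      (isOpen_lt (hcc.dist continuous_const) continuous_const)
  · exact hsc.isOpen_inter_preimage isOpen_ball isOpen_ball
  · exact ⟨by rw [dist_self]; exact hε, by rw [dist_self]; exact hε⟩

/-- **Lifting of entire curves** -/
theorem lift (hX : Conic X) (hX' : Conic X') (hc : IsCompact (TS X')) (h : Covering X' X π)
    {f : ℂ → ℙ ℂ (Fin (n + 1) → ℂ)} (hf : CurveIn X f) {p : ℙ ℂ (Fin (n' + 1) → ℂ)}
    (hp : p.rep ∈ X') (hpf : π p = f 0) :
    ∃ f' : ℂ → ℙ ℂ (Fin (n' + 1) → ℂ), CurveIn X' f' ∧ f' 0 = p ∧ ∀ z, π (f' z) = f z := by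
  have : CompactSpace (TS X') := isCompact_iff_compactSpace.1 hc
  have hcov : IsCoveringMap (cov hX' h) :=
    isLocalHomeomorph_iff_isCoveringMap.1 (isLocalHomeomorph_cov hX hX' h)
  have hfc : Continuous fun z => (⟨Phi (f z).rep, mem_TS (hf.2 z)⟩ : TS X) := by
    refine Continuous.subtype_mk ?_ _
    rw [continuous_iff_continuousAt]
    exact fun z => (holP_of hf.1).continuousAt (mem_univ z)
  have he : cov hX' h ⟨Phi p.rep, mem_TS hp⟩ =
      (⟨fun z => (⟨Phi (f z).rep, mem_TS (hf.2 z)⟩ : TS X), hfc⟩ : C(ℂ, TS X)) 0 := by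
    apply Subtype.ext
    change Phi (π (toProj (Phi p.rep))).rep = Phi (f 0).rep
    rw [toProj_rep, hpf]
  obtain ⟨F, ⟨hF0, hF⟩, -⟩ := hcov.existsUnique_continuousMap_lifts
    (⟨fun z => (⟨Phi (f z).rep, mem_TS (hf.2 z)⟩ : TS X), hfc⟩ : C(ℂ, TS X)) 0
    ⟨Phi p.rep, mem_TS hp⟩ he
  have hFπ : ∀ z, π (toProj (F z).1) = f z := by
    intro z
    have h1 := congrArg (fun N : TS X => N.1) (congrFun hF z)
    change Phi (π (toProj (F z).1)).rep = Phi (f z).rep at h1
    exact proj_ext h1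
  have hmem : ∀ z, (toProj (F z).1).rep ∈ X' := fun z => rep_toProj hX' (F z).2
  refine ⟨fun z => toProj (F z).1, ⟨fun z => ?_, hmem⟩, ?_, hFπ⟩
  · obtain ⟨ε, σ, hε, h1, h2⟩ := h.inv (toProj (F z).1) (hmem z)
    have h3 : projDist (f z) (π (toProj (F z).1)) < ε := by
      rw [hFπ]
      unfold projDist
      rw [sub_self, norm_zero]
      exact hε
    obtain ⟨V, g, hV, hzV, hg, hgV⟩ := hol_comp hX hf (h1 _ (hf.2 z) h3).1
    have hcF : Continuous fun w => dist (F w) (F z) := F.continuous.dist continuous_const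
    have hW : IsOpen {w | dist (F w) (F z) < ε} := isOpen_lt hcF continuous_const
    refine ⟨V ∩ {w | dist (F w) (F z) < ε}, g, hV.inter hW, ⟨hzV, ?_⟩, hg.mono inter_subset_left,
      fun w hw => ?_⟩
    · change dist (F z) (F z) < ε
      rw [dist_self]
      exact hε
    · obtain ⟨h4, h5⟩ := hgV w hw.1
      refine ⟨h4, ?_⟩
      have h6 : projDist (toProj (F w).1) (toProj (F z).1) < ε := by
        have h7 : dist (F w) (F z) < ε := hw.2
        unfold projDist
        rwa [Phi_rep_toProj (TS_PM hX' (F w).2), Phi_rep_toProj (TS_PM hX' (F z).2), ← dist_eq_norm,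
          ← Subtype.dist_eq]
      have h7 := h2 _ (hmem w) h6
      change toProj (F w).1 = _
      rw [← h7, hFπ, h5]
  · change toProj (F 0).1 = p
    rw [hF0]
    exact toProj_rep p

end Pool.Agent.U647.ET
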